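import Pool.Agent.Q272.PSZ.Main
import Pool.Agent.Q272.PSZ.HPoly

/-!
The projective Schwartz–Zippel bound with the exponent `n/(n+1)` of the degree, for all varieties
in `ℙⁿ` over `ℚ` of any pure dimension `k`.
-/

namespace Pool.Agent.Results.MP_a053e2_nt.AllVarieties

open MvPolynomial Filter Topology

attribute [local instance] MvPolynomial.gradedAlgebra

/-- The homogeneous coordinate ring `ℚ[x_0, …, x_n]` of `ℙⁿ`. -/
abbrev R (n : ℕ) := MvPolynomial (Fin (n + 1)) ℚ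

/-- The Hilbert function of an ideal `P`: the dimension over `ℚ` of the degree `t` part of `R/P`,
that is, of the image in `R/P` of the space of forms of degree `t`. -/
noncomputable def hilbertFunction {n : ℕ} (P : Ideal (R n)) (t : ℕ) : ℕ :=
  Module.finrank ℚ ((homogeneousSubmodule (Fin (n + 1)) ℚ t).map
    (Ideal.Quotient.mkₐ ℚ P).toLinearMap)

/-- The set of the points of `ℙⁿ(ℚ)` at which all the elements of `I` vanish and which have
integer homogeneous coordinates `x_0, …, x_n` with `max |x_i| ≤ B`. -/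
def points {n : ℕ} (I : Ideal (R n)) (B : ℝ) :
    Set (Projectivization ℚ (Fin (n + 1) → ℚ)) :=
  {p | ∃ (x : Fin (n + 1) → ℤ) (hx : (fun i => (x i : ℚ)) ≠ 0),
    p = Projectivization.mk ℚ (fun i => (x i : ℚ)) hx ∧ (∀ i, |(x i : ℝ)| ≤ B) ∧
    ∀ f ∈ I, eval (fun i => (x i : ℚ)) f = 0}

theorem evx_homog {n t : ℕ} {f : R n} (hf : f.IsHomogeneous t) (x : Fin (n + 1) → ℤ) :
    Q272.PSZ.evx x f = Polynomial.C (eval (fun i => (x i : ℚ)) f) * Polynomial.X ^ t := by
  unfold Q272.PSZ.evx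
  rw [aeval_def, eval₂_eq', eval_eq', map_sum, Finset.sum_mul]
  refine Finset.sum_congr rfl fun d hd => ?_
  have h1 : ∑ i, d i = t := by
    have h2 := hf (mem_support_iff.1 hd)
    rw [Finsupp.weight_apply, Finsupp.sum_fintype _ _ (fun i => by simp)] at h2
    simpa using h2
  rw [← h1, ← Finset.prod_pow_eq_pow_sum, map_mul, map_prod, mul_assoc,
    ← Finset.prod_mul_distrib]
  congr 1
  refine Finset.prod_congr rfl fun i _ => ?_
  rw [smul_pow, map_pow, Polynomial.smul_eq_C_mul, map_pow]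

theorem le_mx {n : ℕ} {I : Ideal (R n)}
    (hI : I.IsHomogeneous (homogeneousSubmodule (Fin (n + 1)) ℚ)) {x : Fin (n + 1) → ℤ}
    (hx : ∀ f ∈ I, eval (fun i => (x i : ℚ)) f = 0) : I ≤ Q272.PSZ.mx x := by
  intro f hf
  rw [Q272.PSZ.mem_mx, ← sum_homogeneousComponent f, map_sum]
  refine Finset.sum_eq_zero fun t _ => ?_
  rw [evx_homog (homogeneousComponent_isHomogeneous t f), hx _ (homogeneousComponent_mem_of_mem hI hf t),
    map_zero, zero_mul]

theorem mk_eq {n : ℕ} {x y : Fin (n + 1) → ℤ} (hx : (fun i => (x i : ℚ)) ≠ 0)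
    (hy : (fun i => (y i : ℚ)) ≠ 0) (h : Q272.PSZ.perpQ x = Q272.PSZ.perpQ y) :
    Projectivization.mk ℚ (fun i => (x i : ℚ)) hx =
      Projectivization.mk ℚ (fun i => (y i : ℚ)) hy := by
  rw [Projectivization.mk_eq_mk_iff']
  obtain ⟨i, hi⟩ := Function.ne_iff.1 hx
  have hxi : (x i : ℚ) ≠ 0 := hi
  have h5 : ∀ (z : Fin (n + 1) → ℤ) (k : Fin (n + 1)),
      ∑ t, (Pi.single k 1 : Fin (n + 1) → ℚ) t * z t = z k := by
    intro z k
    rw [Finset.sum_eq_single k]
    · simp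
    · intro b _ hb
      rw [Pi.single_eq_of_ne hb, zero_mul]
    · intro h; exact absurd (Finset.mem_univ k) h
  have hdot : ∀ (z : Fin (n + 1) → ℤ) (j : Fin (n + 1)),
      ∑ t, ((x i : ℚ) • (Pi.single j 1 : Fin (n + 1) → ℚ) -
        (x j : ℚ) • (Pi.single i 1 : Fin (n + 1) → ℚ)) t * z t =
      (x i : ℚ) * z j - (x j : ℚ) * z i := by
    intro z j
    simp only [Pi.sub_apply, Pi.smul_apply, smul_eq_mul, sub_mul, Finset.sum_sub_distrib,
      mul_assoc]
    rw [← Finset.mul_sum, ← Finset.mul_sum, h5, h5]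
  have hj : ∀ j, (x i : ℚ) * y j = (x j : ℚ) * y i := by
    intro j
    have h1 : (x i : ℚ) • (Pi.single j 1 : Fin (n + 1) → ℚ) -
        (x j : ℚ) • (Pi.single i 1 : Fin (n + 1) → ℚ) ∈ Q272.PSZ.perpQ x := by
      rw [Q272.PSZ.mem_perpQ, hdot]
      ring
    rw [h, Q272.PSZ.mem_perpQ, hdot] at h1
    linarith
  have hyi : (y i : ℚ) ≠ 0 := by
    intro h0
    apply hy
    funext j
    have := hj j
    rw [h0, mul_zero] at this
    exact (mul_eq_zero.1 this).resolve_left hxi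
  refine ⟨(x i : ℚ) / y i, ?_⟩
  funext j
  rw [Pi.smul_apply, smul_eq_mul, div_mul_eq_mul_div, hj j, mul_div_assoc, div_self hyi, mul_one]

/-- **Projective Schwartz–Zippel bound, sublinear in the degree.**  For all `n ≥ 1` and
`0 ≤ k ≤ n` there is a constant `c` such that for every homogeneous radical ideal `I` of
`ℚ[x_0, …, x_n]` all of whose minimal primes `P` have `trdeg (R/P) = k + 1` (that is, for every
variety `X` of pure dimension `k`), the degrees `δ(P)` of the irreducible components exist, and for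
all `B ≥ 1` the set `X(ℚ, B)` is finite and has at most `c d^{n/(n+1)} B^{k+1}` elements, where
`d = ∑ δ(P)`. -/
theorem result : ∀ n k : ℕ, 1 ≤ n → k ≤ n → ∃ c : ℝ, ∀ I : Ideal (R n),
    I.IsHomogeneous (homogeneousSubmodule (Fin (n + 1)) ℚ) → I.IsRadical →
    (∀ P ∈ I.minimalPrimes, Algebra.trdeg ℚ (R n ⧸ P) = ((k + 1 : ℕ) : Cardinal)) →
    ∃ δ : Ideal (R n) → ℝ,
      (∀ P ∈ I.minimalPrimes, Tendsto
        (fun t : ℕ => (k.factorial : ℝ) * hilbertFunction P t / (t : ℝ) ^ k) atTop (𝓝 (δ P))) ∧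
      ∀ B : ℝ, 1 ≤ B → (points I B).Finite ∧
        ((points I B).ncard : ℝ) ≤
          c * (∑ᶠ P ∈ I.minimalPrimes, δ P) ^ ((n : ℝ) / (n + 1)) * B ^ (k + 1) := by
  classical
  intro n k hn _
  obtain ⟨C, hC0, hC⟩ := Q272.PSZ.main_count hn
  refine ⟨C * (((n + 1 : ℕ) : ℝ) * 2 ^ n) ^ (k + 1), ?_⟩
  intro I hIh _ hItr
  have hex : ∀ P : Ideal (R n), ∃ δ : ℝ, P ∈ I.minimalPrimes → Tendsto
      (fun t : ℕ => (k.factorial : ℝ) * Q272.PSZ.hilb P t / (t : ℝ) ^ k) atTop (𝓝 δ) := by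
    intro P
    by_cases hP : P ∈ I.minimalPrimes
    · obtain ⟨δ, hδ⟩ := Q272.PSZ.exists_degree (Q272.PSZ.minimalPrime_homog hIh hP) (hItr P hP)
      exact ⟨δ, fun _ => hδ⟩
    · exact ⟨0, fun h => absurd h hP⟩
  choose δ hδ using hex
  refine ⟨δ, hδ, ?_⟩
  intro B hB
  set b : ℕ := ⌊B⌋₊ with hb
  have hbB : (b : ℝ) ≤ B := Nat.floor_le (by linarith)
  have hnat : ∀ x : Fin (n + 1) → ℤ, (∀ i, |(x i : ℝ)| ≤ B) → ∀ i, (x i).natAbs ≤ b := by
    intro x hx i
    apply Nat.le_floor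
    rw [Nat.cast_natAbs]
    push_cast
    exact hx i
  -- finiteness
  have hfinx : {x : Fin (n + 1) → ℤ | ∀ i, (x i).natAbs ≤ b}.Finite := by
    have h1 : {x : Fin (n + 1) → ℤ | ∀ i, (x i).natAbs ≤ b} ⊆
        Set.pi Set.univ fun _ => Set.Icc (-(b : ℤ)) b := by
      intro x hx i _
      have h2 : (x i).natAbs ≤ b := hx i
      change -(b : ℤ) ≤ x i ∧ x i ≤ (b : ℤ)
      omega
    exact (Set.Finite.pi' fun _ => Set.finite_Icc _ _).subset (fun x hx i => h1 hx i trivial)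
  have hsel : ∀ p : Projectivization ℚ (Fin (n + 1) → ℚ), ∃ x : Fin (n + 1) → ℤ,
      p ∈ points I B → ∃ hx : (fun i => (x i : ℚ)) ≠ 0,
        p = Projectivization.mk ℚ (fun i => (x i : ℚ)) hx ∧ (∀ i, |(x i : ℝ)| ≤ B) ∧
        ∀ f ∈ I, eval (fun i => (x i : ℚ)) f = 0 := by
    intro p
    by_cases hp : p ∈ points I B
    · obtain ⟨x, hx⟩ := hp
      exact ⟨x, fun _ => hx⟩
    · exact ⟨0, fun h => absurd h hp⟩
  choose v hv using hsel
  have hinj : Set.InjOn v (points I B) := by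
    intro p hp q hq hpq
    obtain ⟨h1, h2, _⟩ := hv p hp
    obtain ⟨h3, h4, _⟩ := hv q hq
    rw [h2, h4]
    congr 1
    rw [hpq]
  have hfin : (points I B).Finite := by
    apply Set.Finite.of_finite_image _ hinj
    apply hfinx.subset
    rintro _ ⟨p, hp, rfl⟩
    obtain ⟨_, _, h3, _⟩ := hv p hp
    exact hnat _ h3
  refine ⟨hfin, ?_⟩
  set Y : Finset (Fin (n + 1) → ℤ) := hfin.toFinset.image v with hY
  have hYcard : Y.card = (points I B).ncard := by
    rw [hY, Finset.card_image_of_injOn (by rwa [hfin.coe_toFinset]), Set.ncard_eq_toFinset_card _ hfin]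
  have hYmem : ∀ x ∈ Y, ∃ p ∈ points I B, v p = x := by
    intro x hx
    obtain ⟨p, hp, rfl⟩ := Finset.mem_image.1 hx
    exact ⟨p, hfin.mem_toFinset.1 hp, rfl⟩
  have hmain := hC k I hIh hItr δ hδ b Y (by
      intro x hx h0
      obtain ⟨p, hp, rfl⟩ := hYmem x hx
      obtain ⟨h1, _⟩ := hv p hp
      apply h1
      rw [h0]
      funext i
      simp) (by
      intro x hx y hy hxy
      obtain ⟨p, hp, rfl⟩ := hYmem x hx
      obtain ⟨q, hq, rfl⟩ := hYmem y hy
      obtain ⟨h1, h2, _⟩ := hv p hp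
      obtain ⟨h3, h4, _⟩ := hv q hq
      have : p = q := by
        rw [h2, h4]
        exact mk_eq h1 h3 hxy
      rw [this]) (by
      intro x hx
      obtain ⟨p, hp, rfl⟩ := hYmem x hx
      obtain ⟨_, _, h3, _⟩ := hv p hp
      exact Q272.PSZ.nm_le (hnat _ h3)) (by
      intro x hx
      obtain ⟨p, hp, rfl⟩ := hYmem x hx
      obtain ⟨_, _, _, h4⟩ := hv p hp
      exact le_mx hIh h4)
  rw [← hYcard]
  refine hmain.trans ?_
  have hd0 : 0 ≤ ∑ᶠ P ∈ I.minimalPrimes, δ P := by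
    exact finsum_nonneg fun P => finsum_nonneg fun hP => Q272.PSZ.degree_nonneg (hδ P hP)
  have hd := Real.rpow_nonneg hd0 ((n : ℝ) / (n + 1))
  calc C * (∑ᶠ P ∈ I.minimalPrimes, δ P) ^ ((n : ℝ) / (n + 1)) *
        (((n + 1 : ℕ) : ℝ) * 2 ^ n * b) ^ (k + 1) ≤
      C * (∑ᶠ P ∈ I.minimalPrimes, δ P) ^ ((n : ℝ) / (n + 1)) *
        (((n + 1 : ℕ) : ℝ) * 2 ^ n * B) ^ (k + 1) := by
        apply mul_le_mul_of_nonneg_left _ (by positivity)
        apply pow_le_pow_left₀ (by positivity)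
        apply mul_le_mul_of_nonneg_left hbB (by positivity)
    _ = _ := by rw [mul_pow (((n + 1 : ℕ) : ℝ) * 2 ^ n)]; ring

end Pool.Agent.Results.MP_a053e2_nt.AllVarieties
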